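import Pool.Agent.W458.MF.XStm

/-!
# The degree of the Frobenius endomorphism of a piece
-/

open CategoryTheory AlgebraicGeometry Polynomial

universe u v

namespace Pool.Agent.W216.MF

open Pool.Agent.H914 Pool.Agent.W534 Pool.Agent.W521.Frob VarClass Obj WeilCohomology
  Pool.Agent.H281R3.HT Pool.Agent.W458.MF

section

variable {k : Type u} [Field k] {𝒱 : VarClass k} {ops : CycleOps 𝒱}
  (W : WeilCohomology.{u, v} ops) {X : 𝒱.Obj}

lemma top_zero {x : W.H X} (hx : x ∈ W.gr X (2 * X.dim)) (h : W.tr X x = 0) : x = 0 := by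
  apply W.nondeg
  intro b
  refine gr_induction (W.isInternal X) (p := fun b => W.tr X (x * b) = 0) ?_ ?_ b
  · intro i b hb
    rcases Nat.eq_zero_or_pos i with rfl | hi
    · rw [W.gr_zero] at hb
      obtain ⟨c, rfl⟩ := Submodule.mem_span_singleton.1 hb
      rw [mul_smul_comm, mul_one, map_smul, h, smul_zero]
    · exact W.tr_eq_zero (W.mul_mem hx hb) (by omega)
  · intro a b ha hb
    rw [mul_add, map_add, ha, hb, add_zero]

lemma tr_map (f : X ⟶ X) : ∃ c : W.K, ∀ x, W.tr X (W.map f x) = c * W.tr X x := by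
  have h1 : ∀ x : W.H X, ∃ x' ∈ W.gr X (2 * X.dim), W.tr X x = W.tr X x' ∧
      W.tr X (W.map f x) = W.tr X (W.map f x') := by
    intro x
    refine gr_induction (W.isInternal X) (p := fun x => ∃ x' ∈ W.gr X (2 * X.dim),
      W.tr X x = W.tr X x' ∧ W.tr X (W.map f x) = W.tr X (W.map f x')) ?_ ?_ x
    · intro i x hx
      by_cases hi : i = 2 * X.dim
      · subst hi
        exact ⟨x, hx, rfl, rfl⟩
      · refine ⟨0, Submodule.zero_mem _, ?_, ?_⟩
        · rw [W.tr_eq_zero hx hi, map_zero]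
        · rw [W.tr_eq_zero (W.map_mem f hx) hi, map_zero, map_zero]
    · rintro x y ⟨x', hx', h1, h2⟩ ⟨y', hy', h3, h4⟩
      refine ⟨x' + y', Submodule.add_mem _ hx' hy', ?_, ?_⟩
      · rw [map_add, map_add, h1, h3]
      · rw [map_add, map_add, map_add, map_add, h2, h4]
  have h2 : ∀ x : W.H X, W.tr X x = 0 → W.tr X (W.map f x) = 0 := by
    intro x hx
    obtain ⟨x', hx', e1, e2⟩ := h1 x
    have : x' = 0 := top_zero W hx' (by rw [← e1, hx])
    rw [e2, this, map_zero, map_zero]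
  by_cases h0 : ∀ x : W.H X, W.tr X x = 0
  · exact ⟨0, fun x => by rw [h0, zero_mul]⟩
  · push Not at h0
    obtain ⟨y, hy⟩ := h0
    refine ⟨W.tr X (W.map f y) / W.tr X y, fun x => ?_⟩
    have h3 := h2 (x - (W.tr X x / W.tr X y) • y) (by
      rw [map_sub, map_smul, smul_eq_mul, div_mul_cancel₀ _ hy, sub_self])
    rw [map_sub, map_smul, map_sub, map_smul, smul_eq_mul, sub_eq_zero] at h3
    rw [h3]
    ring

end

theorem deg : St_DEG.{u, v} := by
  intro k _ 𝒱 ops W Y p Φ P m hp hm hfr hgen hpush hspan hex hnd hne x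
  obtain ⟨c, hc⟩ := tr_map W P.fr
  obtain ⟨lam, v, hv⟩ := hex
  have hp0 : ((p : ℕ) : W.K) ≠ 0 := cast_p_ne Φ
  generalize hQ : (p : W.K) ^ (P.obj.dim * m) = Q at hnd hne ⊢
  have hQ0 : Q ≠ 0 := by
    rw [← hQ]
    exact pow_ne_zero _ hp0
  have hz : ∃ z, W.tr P.obj (v * z) ≠ 0 := by
    by_contra hcon
    push Not at hcon
    exact hv.ne (W.nondeg v hcon)
  obtain ⟨z, hz⟩ := hz
  obtain ⟨a, b, ha, hb, hab, hiter⟩ := hfr
  have hca : c ^ a = Q ^ a := by
    have h1 : ∀ (s : ℕ) (x : W.H P.obj),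
        W.tr P.obj ((W.map P.fr)^[s] x) = c ^ s * W.tr P.obj x := by
      intro s
      induction s with
      | zero => intro x; simp
      | succ s ih =>
        intro x
        rw [Function.iterate_succ_apply, ih, hc, pow_succ]
        ring
    have h2 := tr_iter Φ b (v * z)
    rw [← hiter, W534.map_iter, h1] at h2
    have h3 := mul_right_cancel₀ hz h2
    rw [h3, ← hQ, ← pow_mul]
    congr 1
    calc Φ.e P.obj * b * P.obj.dim = (b * Φ.e P.obj) * P.obj.dim := by ring
      _ = (a * m) * P.obj.dim := by rw [hab]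
      _ = P.obj.dim * m * a := by ring
  obtain ⟨y, hy⟩ := hgen z
  have hw : W.tr P.obj (v * (z - W.map P.mor y)) ≠ 0 := by
    rw [mul_sub, map_sub, ← W.tr_push, hpush v hv.mem, zero_mul, map_zero, sub_zero]
    exact hz
  have hu : ∃ u, ((∃ lam', IsEig p P m lam' u) ∨ IsExt p P m u) ∧
      W.tr P.obj (v * u) ≠ 0 := by
    by_contra hcon
    push Not at hcon
    apply hw
    have h1 := hspan _ hy
    refine Submodule.span_induction (p := fun u _ => W.tr P.obj (v * u) = 0) ?_ ?_ ?_ ?_ h1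
    · intro u hu
      exact hcon u hu
    · rw [mul_zero, map_zero]
    · intro a b _ _ ha hb
      rw [mul_add, map_add, ha, hb, add_zero]
    · intro t a _ ha
      rw [mul_smul_comm, map_smul, ha, smul_zero]
  obtain ⟨u, hu, hvu⟩ := hu
  have key : ∀ μ : W.K, W.map P.fr u = μ • u → lam * μ = c := by
    intro μ hμ
    have h1 := hc (v * u)
    rw [map_mul, hv.eig, hμ, smul_mul_smul_comm, map_smul, smul_eq_mul] at h1
    exact mul_right_cancel₀ hvu h1
  rcases hu with ⟨lam', hl⟩ | ⟨hus, n, hn, hext⟩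
  · have h1 := key lam' hl.eig
    have h2 := hnd lam lam' v u hv hl a ha (by rw [h1, hca])
    rw [hc, ← h1, h2]
  · exfalso
    have hμ : ∃ μ : W.K, W.map P.fr u = μ • u ∧ μ ^ 2 = Q := by
      have e : ((p : W.K) ^ (n * m)) ^ 2 = Q := by
        rw [← hQ, hn, ← pow_mul]
        congr 1
        ring
      rcases hext with h | h
      · exact ⟨_, h, e⟩
      · exact ⟨_, h, by rw [neg_sq]; exact e⟩
    obtain ⟨μ, hμ, hμ2⟩ := hμ
    have h1 := key μ hμ
    apply hne lam v hv a ha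
    have h2 : (lam ^ 2) ^ a * Q ^ a = Q ^ a * Q ^ a := by
      calc (lam ^ 2) ^ a * Q ^ a = ((lam * μ) ^ 2) ^ a := by
            rw [mul_pow lam μ 2, mul_pow (lam ^ 2), hμ2]
        _ = (c ^ a) ^ 2 := by rw [h1, ← pow_mul, ← pow_mul, mul_comm]
        _ = Q ^ a * Q ^ a := by rw [hca, sq]
    exact mul_right_cancel₀ (pow_ne_zero a hQ0) h2

end Pool.Agent.W216.MF
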