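import Pool.Agent.W458.MF.Stm2
import Pool.Agent.W534.PoleD

/-! Subtask MF-POLE (owner helper458): pole formula from generalised Tate classes. -/

open CategoryTheory AlgebraicGeometry Finset

universe u v

namespace Pool.Agent.W216.MF

open Pool.Agent.H914 Pool.Agent.H447 Pool.Agent.W534 VarClass Obj WeilCohomology

theorem pole : Pool.Agent.W458.MF.St_POLE.{u, v} := by
  intro k _ 𝒱 ops W σ p hp Φ Z hRH h j hj
  refine (pole_iff_tate hp hRH hj).2 ⟨?_, ?_⟩
  · intro c hc
    obtain ⟨s, hs, h1⟩ := IsTate.mem Φ hc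
    exact h j hj s hs h1
  · obtain ⟨t, ht, h2⟩ := exists_span_eig Φ Z j
    obtain ⟨l, hl⟩ := Nat.exists_eq_add_of_le hj
    have hjl : j + l = Z.dim := hl.symm
    have hl' : Z.dim - j = l := by omega
    have hle : ∀ y ∈ genTate Φ Z t l, y ∈ spanCycles W Z l :=
      fun y hy => h l (by omega) t ht hy
    intro z hz h5
    rw [hl'] at h5
    have horth : ∀ y ∈ spanCycles W Z l, W.tr Z (W.cl Z z * y) = 0 := by
      intro y hy
      induction hy using Submodule.span_induction with
      | mem y hy =>
        obtain ⟨r, hr, w, hw, rfl⟩ := hy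
        obtain rfl : r = l := by exact_mod_cast hr
        rw [tr_mul_cl hz hw hjl, h5 w hw, Rat.cast_zero]
      | zero => rw [mul_zero, map_zero]
      | add a b _ _ ha hb => rw [mul_add, map_add, ha, hb, add_zero]
      | smul a b _ hb => rw [mul_smul_comm, map_smul, hb, smul_zero]
    exact genTate_nondeg Φ (s := t) hjl (mem_genTate_of_eig Φ (W.cl_mem hz)
      (h2 _ (mem_span_cl hz))) (fun y hy => horth y (hle y hy))

end Pool.Agent.W216.MF
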