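import Pool.Agent.W458.MF.NStm

/-! Subtasks MF-UNI and MF-SIEVE (owner helper458). -/

open Polynomial

namespace Pool.Agent.W216.MF

theorem dvd_fact (d n : ℕ) (hn : 0 < n) (h : n.totient ≤ d) : n ∣ (2 * d).factorial := by
  rw [Nat.dvd_iff_prime_pow_dvd_dvd]
  intro p k hp hpk
  rcases Nat.eq_zero_or_pos k with h0 | h0
  · subst h0
    simp
  have h1 : (p ^ k).totient ≤ d :=
    (Nat.le_of_dvd (Nat.totient_pos.2 hn) (Nat.totient_dvd_of_dvd hpk)).trans h
  rw [Nat.totient_prime_pow hp h0] at h1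
  have h2 : p ^ k = p ^ (k - 1) * p := by
    rw [← pow_succ]
    congr 1
    omega
  have h3 : p ≤ 2 * (p - 1) := by
    have := hp.two_le
    omega
  have h4 : p ^ k ≤ 2 * d := by
    rw [h2]
    calc p ^ (k - 1) * p ≤ p ^ (k - 1) * (2 * (p - 1)) := Nat.mul_le_mul_left _ h3
      _ = 2 * (p ^ (k - 1) * (p - 1)) := by ring
      _ ≤ 2 * d := Nat.mul_le_mul_left _ h1
  exact Nat.dvd_factorial (pow_pos hp.pos k) h4

theorem uni : Pool.Agent.W458.MF.St_UNI := by
  intro d
  refine ⟨(2 * d).factorial, Nat.factorial_pos _, ?_⟩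
  rintro z ⟨t, ht, hzt⟩ ⟨P, hP0, hPd, hPz⟩
  have hfin : IsOfFinOrder z := isOfFinOrder_iff_pow_eq_one.2 ⟨t, ht, hzt⟩
  have hn : 0 < orderOf z := hfin.orderOf_pos
  have hprim := IsPrimitiveRoot.orderOf z
  have hmin := Polynomial.cyclotomic_eq_minpoly_rat hprim hn
  have hdvd : minpoly ℚ z ∣ P := minpoly.dvd ℚ z hPz
  have hdeg : (minpoly ℚ z).natDegree ≤ d := (natDegree_le_of_dvd hdvd hP0).trans hPd
  rw [← hmin, natDegree_cyclotomic] at hdeg
  obtain ⟨c, hc⟩ := dvd_fact d _ hn hdeg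
  rw [hc, pow_mul, pow_orderOf_eq_one, one_pow]

theorem sieve : Pool.Agent.W458.MF.St_SIEVE := by
  classical
  intro S κ _ _ _ _ E μ c δ hc hδ hcμ hμ1 h1 h2
  set Q : ℝ := (Nat.card S : ℝ) with hQ
  have hQ0 : 0 < Q := by
    rw [hQ]
    exact_mod_cast Nat.card_pos
  set n : ℝ := (Nat.card κ : ℝ) with hn
  have hn0 : 0 < n := by
    rw [hn]
    exact_mod_cast Nat.card_pos
  have hcardκ : (Fintype.card κ : ℝ) = n := by rw [hn, Nat.card_eq_fintype_card]
  have hcardS : (Fintype.card S : ℝ) = Q := by rw [hQ, Nat.card_eq_fintype_card]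
  set M : ℝ := ∑ i, μ i with hM
  have hMc : c * n ≤ M := by
    have : ∑ _i : κ, c ≤ M := Finset.sum_le_sum fun i _ => hcμ i
    rwa [Finset.sum_const, Finset.card_univ, nsmul_eq_mul, hcardκ, mul_comm] at this
  have hM1 : M ≤ n := by
    have : M ≤ ∑ _i : κ, (1 : ℝ) := Finset.sum_le_sum fun i _ => hμ1 i
    rwa [Finset.sum_const, Finset.card_univ, nsmul_eq_mul, hcardκ, mul_one] at this
  have hM0 : 0 < M := lt_of_lt_of_le (by positivity) hMc
  -- counting
  set ind : κ → S → ℝ := fun i s => if s ∈ E i then 1 else 0 with hind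
  have hcount : ∀ A : Set S, (A.ncard : ℝ) = ∑ s, if s ∈ A then (1 : ℝ) else 0 := by
    intro A
    rw [Finset.sum_ite, Finset.sum_const_zero, add_zero, Finset.sum_const, nsmul_eq_mul, mul_one]
    congr 1
    rw [← Set.ncard_coe_finset]
    congr 1
    ext s
    simp
  have hc1 : ∀ i, ∑ s, ind i s = ((E i).ncard : ℝ) := fun i => (hcount (E i)).symm
  have hc2 : ∀ i j, ∑ s, ind i s * ind j s = ((E i ∩ E j).ncard : ℝ) := by
    intro i j
    rw [hcount]
    apply Finset.sum_congr rfl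
    intro s _
    simp only [hind, Set.mem_inter_iff]
    by_cases ha : s ∈ E i <;> by_cases hb : s ∈ E j <;> simp [ha, hb]
  have hlow : ∀ i, (μ i - δ) * Q ≤ ∑ s, ind i s := by
    intro i
    rw [hc1]
    have := (abs_le.1 (h1 i)).1
    rw [← le_div_iff₀ hQ0]
    linarith
  have hup : ∀ i j, ∑ s, ind i s * ind j s ≤ (μ i * μ j + δ + if i = j then μ i else 0) * Q := by
    intro i j
    rw [hc2, ← div_le_iff₀ hQ0]
    by_cases hij : i = j
    · subst hij
      rw [if_pos rfl, Set.inter_self]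
      have h3 := (abs_le.1 (h1 i)).2
      have h4 : 0 ≤ μ i := hc.le.trans (hcμ i)
      have := mul_nonneg h4 h4
      linarith
    · rw [if_neg hij]
      have h3 := (abs_le.1 (h2 i j hij)).2
      linarith
  -- the second moment
  set V : ℝ := ∑ s, (∑ i, ind i s - M) ^ 2 with hV
  have hV1 : V = ∑ i, ∑ j, ∑ s, ind i s * ind j s - 2 * M * ∑ i, ∑ s, ind i s + Q * M ^ 2 := by
    have e1 : ∀ s, (∑ i, ind i s - M) ^ 2
        = ∑ i, ∑ j, ind i s * ind j s - 2 * M * ∑ i, ind i s + M ^ 2 := by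
      intro s
      rw [← Finset.sum_mul_sum]
      ring
    rw [hV, Finset.sum_congr rfl (fun s _ => e1 s), Finset.sum_add_distrib, Finset.sum_sub_distrib,
      ← Finset.mul_sum, Finset.sum_const, Finset.card_univ, nsmul_eq_mul, hcardS]
    congr 2
    · rw [Finset.sum_comm]
      apply Finset.sum_congr rfl
      intro i _
      rw [Finset.sum_comm]
    · rw [Finset.sum_comm]
  have hA : ∑ i, ∑ j, ∑ s, ind i s * ind j s ≤ (M ^ 2 + n ^ 2 * δ + M) * Q := by
    have e : ∑ i, ∑ j, (μ i * μ j + δ + if i = j then μ i else 0) * Q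
        = (M ^ 2 + n ^ 2 * δ + M) * Q := by
      simp only [← Finset.sum_mul]
      congr 1
      simp only [Finset.sum_add_distrib, Finset.sum_const, Finset.card_univ, nsmul_eq_mul,
        Finset.sum_ite_eq, Finset.mem_univ, if_true]
      rw [← Finset.sum_mul_sum, hcardκ]
      ring
    rw [← e]
    exact Finset.sum_le_sum fun i _ => Finset.sum_le_sum fun j _ => hup i j
  have hB : (M - n * δ) * Q ≤ ∑ i, ∑ s, ind i s := by
    have e : ∑ i, (μ i - δ) * Q = (M - n * δ) * Q := by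
      rw [← Finset.sum_mul, Finset.sum_sub_distrib, Finset.sum_const, Finset.card_univ,
        nsmul_eq_mul, hcardκ]
    rw [← e]
    exact Finset.sum_le_sum fun i _ => hlow i
  have hV2 : V ≤ (M + 3 * n ^ 2 * δ) * Q := by
    rw [hV1]
    have h3 : 2 * M * ((M - n * δ) * Q) ≤ 2 * M * ∑ i, ∑ s, ind i s :=
      mul_le_mul_of_nonneg_left hB (by positivity)
    have h4 : M * n * δ ≤ n * n * δ := by
      apply mul_le_mul_of_nonneg_right _ hδ
      exact mul_le_mul_of_nonneg_right hM1 hn0.le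
    nlinarith
  -- the set without any `E i`
  set N : ℝ := ({s : S | ∀ i, s ∉ E i}.ncard : ℝ) with hN
  have hN1 : N * M ^ 2 ≤ V := by
    rw [hN, hcount, Finset.sum_mul, hV]
    apply Finset.sum_le_sum
    intro s _
    by_cases hs : s ∈ {s : S | ∀ i, s ∉ E i}
    · rw [if_pos hs]
      have hs' : ∀ i, s ∉ E i := by simpa using hs
      have : ∑ i, ind i s = 0 := by
        apply Finset.sum_eq_zero
        intro i _
        simp only [hind]
        rw [if_neg]
        exact hs' i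
      rw [this]
      ring_nf
      exact le_refl _
    · rw [if_neg hs, zero_mul]
      exact sq_nonneg _
  have hfin : N / Q * M ^ 2 ≤ M + 3 * n ^ 2 * δ := by
    rw [div_mul_eq_mul_div, div_le_iff₀ hQ0]
    exact hN1.trans hV2
  have h3 : N / Q ≤ (M + 3 * n ^ 2 * δ) / M ^ 2 := by
    rw [le_div_iff₀ (by positivity)]
    exact hfin
  refine h3.trans ?_
  rw [add_div]
  apply add_le_add
  · rw [sq, div_mul_eq_div_div, div_self hM0.ne']
    exact one_div_le_one_div_of_le (by positivity) hMc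
  · rw [div_le_div_iff₀ (by positivity) (by positivity)]
    have h5 : c ^ 2 * n ^ 2 ≤ M ^ 2 := by
      rw [← mul_pow]
      exact pow_le_pow_left₀ (by positivity) hMc 2
    nlinarith [mul_le_mul_of_nonneg_left h5 hδ, mul_nonneg hδ (sq_nonneg M)]

end Pool.Agent.W216.MF
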